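import Pool.Agent.helper34.FV.JP

/-! Project FV (MP_3703a7_ag): module CL, classes of parallel rows -/

set_option autoImplicit false

namespace Pool.Agent.helper76.FV

open Finset

theorem CL_symm {d : ℕ} {a b : Fin d → ℤ} (h : Par a b) : Par b a := by
  obtain ⟨p, q, hp, hq, h⟩ := h
  exact ⟨q, p, hq, hp, fun l => (h l).symm⟩

theorem CL_trans {d : ℕ} {a b c : Fin d → ℤ} (h : Par a b) (h' : Par b c) : Par a c := by
  obtain ⟨p, q, hp, hq, h⟩ := h
  obtain ⟨p', q', hp', hq', h'⟩ := h'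
  refine ⟨p' * p, q * q', mul_ne_zero hp' hp, mul_ne_zero hq hq', fun l => ?_⟩
  calc p' * p * a l = p' * (p * a l) := by ring
    _ = q * (p' * b l) := by rw [h l]; ring
    _ = q * q' * c l := by rw [h' l]; ring

theorem CL_refl {d : ℕ} (a : Fin d → ℤ) : Par a a := ⟨1, 1, one_ne_zero, one_ne_zero, fun _ => rfl⟩

theorem CL_ne {d : ℕ} {a b : Fin d → ℤ} (h : Par a b) (ha : a ≠ 0) : b ≠ 0 := by
  obtain ⟨p, q, hp, hq, h⟩ := h
  rintro rfl
  apply ha
  funext l
  have := h l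
  simp only [Pi.zero_apply, mul_zero, mul_eq_zero] at this
  exact this.resolve_left hp

open Classical in
theorem CL_partner {k : ℕ} (H : Fam k) (hp : H.Pure) (hz : ∀ j, H.A j = 0 → Int.fract (H.b j) ≠ 0)
    (i : Fin k) (hi : H.A i ≠ 0) (n : ℤ) :
    ∃ j, j ≠ i ∧ Par (H.A j) (H.A i) ∧ ∃ κ : ℚ, 0 < κ ∧
      (∀ l, (H.A j l : ℚ) = -κ * H.A i l) ∧ ∃ N : ℤ, (N : ℚ) = -κ * (n - H.b i) + H.b j := by
  obtain ⟨v, hv1, hv2⟩ := wall H i hi n
  have hN := WP_sq_pos (H.A i) hi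
  have hpar : ∀ j, Int.fract (∑ l, (H.A j l : ℚ) * v l + H.b j) = 0 → Par (H.A j) (H.A i) := by
    intro j hj
    by_contra hc
    by_cases h0 : H.A j = 0
    · apply hz j h0
      rw [← hj, h0]
      congr 1
      simp
    · exact hv2 j h0 hc hj
  have hdot : ∀ j, Par (H.A j) (H.A i) → ∃ p q : ℤ, p ≠ 0 ∧ q ≠ 0 ∧
      (∀ l, (p : ℚ) * H.A j l = q * H.A i l) ∧
      (p : ℚ) * ∑ l, (H.A j l : ℚ) * (H.A i l : ℚ) = q * ∑ l, (H.A i l : ℚ) * (H.A i l : ℚ) := by
    rintro j ⟨p, q, hp0, hq0, h⟩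
    have h' : ∀ l, (p : ℚ) * H.A j l = q * H.A i l := fun l => by exact_mod_cast h l
    refine ⟨p, q, hp0, hq0, h', ?_⟩
    rw [Finset.mul_sum, Finset.mul_sum]
    refine Finset.sum_congr rfl fun l _ => ?_
    rw [← mul_assoc, h' l]
    ring
  have hj := jump H hp v (fun l => (H.A i l : ℚ)) (by
    intro j hj h0
    obtain ⟨p, q, hp0, hq0, -, h2⟩ := hdot j (hpar j hj)
    rw [h0, mul_zero] at h2
    rcases mul_eq_zero.1 h2.symm with h3 | h3
    · exact hq0 (by exact_mod_cast h3)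
    · exact hN.ne' h3)
  have hipos : i ∈ univ.filter (fun j => Int.fract (∑ l, (H.A j l : ℚ) * v l + H.b j) = 0 ∧
      0 < ∑ l, (H.A j l : ℚ) * (H.A i l : ℚ)) := by
    rw [Finset.mem_filter]
    refine ⟨Finset.mem_univ _, ?_, hN⟩
    rw [hv1]
    exact Int.fract_intCast n
  have hcard := Finset.card_pos.2 ⟨i, hipos⟩
  rw [hj] at hcard
  obtain ⟨j, hj⟩ := Finset.card_pos.1 hcard
  rw [Finset.mem_filter] at hj
  obtain ⟨-, hj1, hj2⟩ := hj
  obtain ⟨p, q, hp0, hq0, h1, h2⟩ := hdot j (hpar j hj1)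
  have hp0' : (p : ℚ) ≠ 0 := by exact_mod_cast hp0
  have hq0' : (q : ℚ) ≠ 0 := by exact_mod_cast hq0
  refine ⟨j, ?_, hpar j hj1, -((q : ℚ) / p), ?_, ?_, ?_⟩
  · rintro rfl
    exact absurd hj2 (not_lt.2 hN.le)
  · have h3 : (q : ℚ) / p * ∑ l, (H.A i l : ℚ) * (H.A i l : ℚ) =
        ∑ l, (H.A j l : ℚ) * (H.A i l : ℚ) := by
      rw [div_mul_eq_mul_div, div_eq_iff hp0']
      linarith
    rw [← h3] at hj2
    have h4 : (q : ℚ) / p < 0 := by
      by_contra hc
      exact absurd (mul_nonneg (not_lt.1 hc) hN.le) (not_le.2 hj2)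
    linarith
  · intro l
    have := h1 l
    rw [neg_neg, div_mul_eq_mul_div, eq_div_iff hp0']
    linarith
  · rw [Int.fract_eq_zero_iff] at hj1
    obtain ⟨N, hN2⟩ := hj1
    refine ⟨N, ?_⟩
    rw [hN2]
    have h3 : ∑ l, (H.A j l : ℚ) * v l = (q : ℚ) / p * ∑ l, (H.A i l : ℚ) * v l := by
      rw [Finset.mul_sum]
      refine Finset.sum_congr rfl fun l _ => ?_
      have := h1 l
      have h5 : (H.A j l : ℚ) = q / p * H.A i l := by
        rw [div_mul_eq_mul_div, eq_div_iff hp0']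
        linarith
      rw [h5]
      ring
    have h4 : ∑ l, (H.A i l : ℚ) * v l = n - H.b i := by linarith
    rw [h3, h4]
    ring

theorem classes {r : ℕ} (H : Fam (2 * r + 2)) (hp : H.Pure)
    (hne : ∃ x, H.Mem x ∧ ∀ i, Int.fract (x i) ≠ 0) :
    (∀ x, H.Mem x → PairedQ x) ∨
    ∃ R : Finset (Fin (2 * r + 2)), R.card ≤ r ∧
      ∀ j, H.A j = 0 ∨ ∃ i ∈ R, Par (H.A j) (H.A i) := by
  classical
  have hz : ∀ j, H.A j = 0 → Int.fract (H.b j) ≠ 0 := by
    intro j hj h0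
    obtain ⟨x, ⟨u, hu⟩, hx⟩ := hne
    obtain ⟨n, hn⟩ := hu j
    apply hx j
    rw [hn, hj, Int.fract_add_intCast]
    simp only [Pi.zero_apply, Int.cast_zero, zero_mul, Finset.sum_const_zero, zero_add]
    exact h0
  set R : Finset (Fin (2 * r + 2)) :=
    univ.filter (fun i => H.A i ≠ 0 ∧ ∀ j, j < i → ¬ Par (H.A j) (H.A i)) with hR
  have hRmem : ∀ i, i ∈ R ↔ (H.A i ≠ 0 ∧ ∀ j, j < i → ¬ Par (H.A j) (H.A i)) := by
    intro i; rw [hR]; simp
  have hrep : ∀ j, H.A j ≠ 0 → ∃ i ∈ R, Par (H.A j) (H.A i) := by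
    intro j hj
    set S : Finset (Fin (2 * r + 2)) := univ.filter (fun i => Par (H.A i) (H.A j)) with hS
    have hSmem : ∀ i, i ∈ S ↔ Par (H.A i) (H.A j) := by intro i; rw [hS]; simp
    have hSne : S.Nonempty := ⟨j, (hSmem j).2 (CL_refl _)⟩
    have hmin := S.min'_mem hSne
    have hmin' : Par (H.A (S.min' hSne)) (H.A j) := (hSmem _).1 hmin
    refine ⟨S.min' hSne, ?_, CL_symm hmin'⟩
    rw [hRmem]
    refine ⟨CL_ne (CL_symm hmin') hj, fun j' hj' hc => ?_⟩
    have : j' ∈ S := (hSmem _).2 (CL_trans hc hmin')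
    exact absurd (S.min'_le j' this) (not_le.2 hj')
  have hReq : ∀ i ∈ R, ∀ i' ∈ R, Par (H.A i) (H.A i') → i = i' := by
    intro i hi i' hi' hpar
    rcases lt_trichotomy i i' with h | h | h
    · exact absurd hpar (((hRmem i').1 hi').2 i h)
    · exact h
    · exact absurd (CL_symm hpar) (((hRmem i).1 hi).2 i' h)
  have hpart : ∀ i, ∃ j, H.A i ≠ 0 → j ≠ i ∧ Par (H.A j) (H.A i) := by
    intro i
    by_cases hi : H.A i ≠ 0
    · obtain ⟨j, h1, h2, -⟩ := CL_partner H hp hz i hi 0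
      exact ⟨j, fun _ => ⟨h1, h2⟩⟩
    · exact ⟨i, fun h => absurd h hi⟩
  choose φ hφ using hpart
  have hφR : ∀ i ∈ R, φ i ∉ R := by
    intro i hi hc
    have h1 := hφ i ((hRmem i).1 hi).1
    exact h1.1 (hReq _ hc _ hi h1.2)
  have hφinj : Set.InjOn φ R := by
    intro i hi i' hi' h
    have h1 := hφ i ((hRmem i).1 hi).1
    have h2 := hφ i' ((hRmem i').1 hi').1
    rw [h] at h1
    exact hReq i hi i' hi' (CL_trans (CL_symm h1.2) h2.2)
  have hsub : R.image φ ⊆ Rᶜ := by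
    intro j hj
    obtain ⟨i, hi, rfl⟩ := Finset.mem_image.1 hj
    rw [Finset.mem_compl]
    exact hφR i hi
  have hcard1 : (R.image φ).card = R.card := Finset.card_image_of_injOn hφinj
  have hcard2 := Finset.card_le_card hsub
  have hcard3 : Rᶜ.card = 2 * r + 2 - R.card := by
    rw [Finset.card_compl, Fintype.card_fin]
  by_cases hRr : R.card ≤ r
  · right
    refine ⟨R, hRr, fun j => ?_⟩
    by_cases hj : H.A j = 0
    · exact Or.inl hj
    · exact Or.inr (hrep j hj)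
  · left
    have hRcard : R.card = r + 1 := by omega
    have himg : R.image φ = Rᶜ := Finset.eq_of_subset_of_card_le hsub (by omega)
    have hcomp : ∀ j, j ∉ R → ∃ i ∈ R, φ i = j := by
      intro j hj
      have : j ∈ R.image φ := by rw [himg, Finset.mem_compl]; exact hj
      exact Finset.mem_image.1 this
    have hnz : ∀ j, H.A j ≠ 0 := by
      intro j
      by_cases hj : j ∈ R
      · exact ((hRmem j).1 hj).1
      · obtain ⟨i, hi, rfl⟩ := hcomp j hj
        have hi0 := ((hRmem i).1 hi).1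
        exact CL_ne (CL_symm (hφ i hi0).2) hi0
    have hclass : ∀ ρ ∈ R, ∀ x, Par (H.A x) (H.A ρ) → x = ρ ∨ x = φ ρ := by
      intro ρ hρ x hx
      by_cases hxR : x ∈ R
      · left; exact hReq x hxR ρ hρ hx
      · right
        obtain ⟨ρ', hρ', rfl⟩ := hcomp x hxR
        have h1 := (hφ ρ' (hnz ρ')).2
        rw [hReq ρ' hρ' ρ hρ (CL_trans (CL_symm h1) hx)]
    have huniq : ∀ i j j', j ≠ i → j' ≠ i → Par (H.A j) (H.A i) → Par (H.A j') (H.A i) →
        j = j' := by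
      intro i j j' h1 h2 h3 h4
      obtain ⟨ρ, hρ, h5⟩ := hrep i (hnz i)
      rcases hclass ρ hρ i h5 with h6 | h6 <;>
      rcases hclass ρ hρ j (CL_trans h3 h5) with h7 | h7 <;>
      rcases hclass ρ hρ j' (CL_trans h4 h5) with h8 | h8
      · exact absurd (h7.trans h6.symm) h1
      · exact absurd (h7.trans h6.symm) h1
      · exact absurd (h8.trans h6.symm) h2
      · exact h7.trans h8.symm
      · exact h7.trans h8.symm
      · exact absurd (h8.trans h6.symm) h2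
      · exact absurd (h7.trans h6.symm) h1
      · exact absurd (h7.trans h6.symm) h1
    have hinv : ∀ i, φ (φ i) = i := by
      intro i
      have h1 := hφ i (hnz i)
      have h2 := hφ (φ i) (hnz _)
      exact huniq (φ i) _ _ h2.1 h1.1.symm h2.2 (CL_symm h1.2)
    -- the factor is an integer
    have hκ : ∀ i, ∃ K : ℤ, 0 < K ∧ (∀ l, (H.A (φ i) l : ℚ) = -(K : ℚ) * H.A i l) ∧
        ∃ N : ℤ, (N : ℚ) = (K : ℚ) * H.b i + H.b (φ i) := by
      intro i
      have h1 := hφ i (hnz i)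
      obtain ⟨j0, hj0, hp0, κ0, hκ0, hA0, N0, hN0⟩ := CL_partner H hp hz i (hnz i) 0
      obtain ⟨j1, hj1, hp1, κ1, hκ1, hA1, N1, hN1⟩ := CL_partner H hp hz i (hnz i) 1
      have e0 : j0 = φ i := huniq i _ _ hj0 h1.1 hp0 h1.2
      have e1 : j1 = φ i := huniq i _ _ hj1 h1.1 hp1 h1.2
      subst e0
      rw [e1] at hA1 hN1
      obtain ⟨l, hl⟩ := Function.ne_iff.1 (hnz i)
      have hl' : (H.A i l : ℚ) ≠ 0 := by exact_mod_cast hl
      have hκeq : κ0 = κ1 := by
        have h2 := (hA0 l).symm.trans (hA1 l)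
        have h3 := mul_right_cancel₀ hl' h2
        linarith
      rw [← hκeq] at hN1
      push_cast at hN0 hN1
      have hK : ((N0 - N1 : ℤ) : ℚ) = κ0 := by
        push_cast
        rw [hN0, hN1]
        ring
      refine ⟨N0 - N1, ?_, ?_, N0, ?_⟩
      · have : (0 : ℚ) < ((N0 - N1 : ℤ) : ℚ) := by rw [hK]; exact hκ0
        exact_mod_cast this
      · intro l
        rw [hK]; exact hA0 l
      · rw [hK, hN0]; ring
    have hone : ∀ i, (∀ l, (H.A (φ i) l : ℚ) = -(H.A i l : ℚ)) ∧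
        ∃ N : ℤ, (N : ℚ) = H.b i + H.b (φ i) := by
      intro i
      obtain ⟨K, hK, hA, N, hN⟩ := hκ i
      obtain ⟨K', hK', hA', N', hN'⟩ := hκ (φ i)
      rw [hinv i] at hA'
      obtain ⟨l, hl⟩ := Function.ne_iff.1 (hnz i)
      have hl' : (H.A i l : ℚ) ≠ 0 := by exact_mod_cast hl
      have h1 : ((K' * K : ℤ) : ℚ) = 1 := by
        have h2 := hA' l
        rw [hA l] at h2
        have h3 : (1 : ℚ) * H.A i l = ((K' * K : ℤ) : ℚ) * H.A i l := by
          push_cast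
          rw [one_mul]
          linarith
        exact (mul_right_cancel₀ hl' h3).symm
      have h2 : K' * K = 1 := by exact_mod_cast h1
      have h3 : K = 1 := by
        rcases Int.eq_one_or_neg_one_of_mul_eq_one' h2 with h4 | h4
        · exact h4.2
        · omega
      rw [h3] at hA hN
      refine ⟨fun l => ?_, N, ?_⟩
      · rw [hA l]; push_cast; ring
      · rw [hN]; push_cast; ring
    intro x hx
    obtain ⟨u, hu⟩ := hx
    refine ⟨Function.Involutive.toPerm φ hinv, fun i => (hφ i (hnz i)).1, hinv, fun i => ?_⟩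
    obtain ⟨n1, hn1⟩ := hu i
    obtain ⟨n2, hn2⟩ := hu (φ i)
    obtain ⟨h1, N, hN⟩ := hone i
    refine ⟨N + n1 + n2, ?_⟩
    show x i + x (φ i) = _
    rw [hn1, hn2]
    have h2 : ∑ j, (H.A (φ i) j : ℚ) * u j = -∑ j, (H.A i j : ℚ) * u j := by
      rw [← Finset.sum_neg_distrib]
      exact Finset.sum_congr rfl fun l _ => by rw [h1 l]; ring
    rw [h2]
    push_cast
    rw [hN]
    ring

end Pool.Agent.helper76.FV
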