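import Pool.Agent.helper76.FV.Defs

/-! Project FV (MP_3703a7_ag): module CT, counting the points of a family -/

set_option autoImplicit false

namespace Pool.Agent.helper76.FV

open Finset

theorem CT_one (m : ℕ) (hm : 0 < m) (p : ℤ) (hp : p ≠ 0) (θ : ℚ) :
    Set.ncard {z : ZMod m | ∃ n : ℤ, (p : ℚ) * ((z.val : ℚ) / m) = θ + n} ≤ 2 * p.natAbs + 1 := by
  have : NeZero m := ⟨hm.ne'⟩
  have hm' : (0 : ℚ) < m := by exact_mod_cast hm
  have hp' : (p : ℚ) ≠ 0 := by exact_mod_cast hp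
  have h1 : ∀ z : ZMod m, |(p : ℚ) * ((z.val : ℚ) / m)| ≤ |(p : ℚ)| := by
    intro z
    have hz : (z.val : ℚ) ≤ m := by exact_mod_cast (ZMod.val_lt z).le
    rw [abs_mul]
    have : |((z.val : ℚ) / m)| ≤ 1 := by
      rw [abs_of_nonneg (by positivity), div_le_one hm']
      exact hz
    exact mul_le_of_le_one_right (abs_nonneg _) this
  have hcard : Set.ncard (↑(Finset.Icc (⌊-θ⌋ - |p|) (⌊-θ⌋ + |p|)) : Set ℤ) = 2 * p.natAbs + 1 := by
    rw [Set.ncard_coe_finset, Int.card_Icc]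
    have : (⌊-θ⌋ + |p| + 1 - (⌊-θ⌋ - |p|)) = ((2 * p.natAbs + 1 : ℕ) : ℤ) := by
      push_cast
      ring
    rw [this, Int.toNat_natCast]
  rw [← hcard]
  refine Set.ncard_le_ncard_of_injOn (fun z => ⌊(p : ℚ) * ((z.val : ℚ) / m) - θ⌋) ?_ ?_
    (Finset.finite_toSet _)
  · rintro z ⟨n, hn⟩
    have h2 : (p : ℚ) * ((z.val : ℚ) / m) - θ = n := by linarith
    have h3 := h1 z
    rw [abs_le] at h3
    rw [Finset.mem_coe, Finset.mem_Icc]
    constructor
    · have h4 : (⌊-θ⌋ : ℚ) - |(p : ℚ)| ≤ (p : ℚ) * ((z.val : ℚ) / m) - θ := by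
        have := Int.floor_le (-θ)
        linarith [h3.1]
      rw [Int.le_floor]
      push_cast
      exact h4
    · have h4 : (p : ℚ) * ((z.val : ℚ) / m) - θ ≤ -θ + ((|p| : ℤ) : ℚ) := by
        push_cast
        linarith [h3.2]
      have h5 := Int.floor_le_floor h4
      rw [Int.floor_add_intCast] at h5
      exact h5
  · rintro z ⟨n, hn⟩ z' ⟨n', hn'⟩ h
    have h2 : (p : ℚ) * ((z.val : ℚ) / m) - θ = n := by linarith
    have h3 : (p : ℚ) * ((z'.val : ℚ) / m) - θ = n' := by linarith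
    have h4 : ⌊(p : ℚ) * ((z.val : ℚ) / m) - θ⌋ = ⌊(p : ℚ) * ((z'.val : ℚ) / m) - θ⌋ := h
    rw [h2, h3, Int.floor_intCast, Int.floor_intCast] at h4
    rw [← h4, ← h2] at h3
    have h5 : (p : ℚ) * ((z.val : ℚ) / m) = (p : ℚ) * ((z'.val : ℚ) / m) := by linarith
    have h6 := mul_left_cancel₀ hp' h5
    rw [div_left_inj' hm'.ne'] at h6
    have h7 : z.val = z'.val := by exact_mod_cast h6
    exact ZMod.val_injective m h7

theorem CT_row {k : ℕ} (H : Fam k) (R : Finset (Fin k))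
    (hR : ∀ j, H.A j = 0 ∨ ∃ i ∈ R, Par (H.A j) (H.A i)) (j : Fin k) :
    ∃ (p : ℤ) (Θ : (Fin k → ℚ) → ℚ), p ≠ 0 ∧
      (∀ x y : Fin k → ℚ, (∀ i ∈ R, x i = y i) → Θ x = Θ y) ∧
      ∀ x, H.Mem x → ∃ n : ℤ, (p : ℚ) * x j = Θ x + n := by
  rcases hR j with h | ⟨i, hi, p, q, hp, hq, h⟩
  · refine ⟨1, fun _ => H.b j, one_ne_zero, fun _ _ _ => rfl, ?_⟩
    rintro x ⟨u, hu⟩
    obtain ⟨n, hn⟩ := hu j
    refine ⟨n, ?_⟩
    rw [hn, h]
    simp
  · refine ⟨p, fun x => q * x i + p * H.b j - q * H.b i, hp, fun x y hxy => ?_, ?_⟩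
    · simp only [hxy i hi]
    · rintro x ⟨u, hu⟩
      obtain ⟨n, hn⟩ := hu j
      obtain ⟨n', hn'⟩ := hu i
      refine ⟨p * n - q * n', ?_⟩
      have h2 : (p : ℚ) * ∑ l, (H.A j l : ℚ) * u l = q * ∑ l, (H.A i l : ℚ) * u l := by
        rw [Finset.mul_sum, Finset.mul_sum]
        refine Finset.sum_congr rfl fun l _ => ?_
        have h3 : (p : ℚ) * H.A j l = q * H.A i l := by exact_mod_cast h l
        rw [← mul_assoc, h3]
        ring
      show (p : ℚ) * x j = q * x i + p * H.b j - q * H.b i + ((p * n - q * n' : ℤ) : ℚ)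
      rw [hn, hn']
      push_cast
      linear_combination h2

theorem count_le {k : ℕ} (H : Fam k) (R : Finset (Fin k))
    (hR : ∀ j, H.A j = 0 ∨ ∃ i ∈ R, Par (H.A j) (H.A i)) :
    ∃ C : ℕ, ∀ m : ℕ, 0 < m →
      Set.ncard {a : Fin k → ZMod m | H.Mem (frac m a)} ≤ C * m ^ R.card := by
  classical
  choose p Θ hp hΘ hmem using CT_row H R hR
  refine ⟨∏ j, (2 * (p j).natAbs + 1), fun m hm => ?_⟩
  have : NeZero m := ⟨hm.ne'⟩
  set S : Finset (Fin k → ZMod m) := univ.filter (fun a => H.Mem (frac m a)) with hS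
  have hSmem : ∀ a, a ∈ S ↔ H.Mem (frac m a) := by intro a; rw [hS]; simp
  have hcoe : {a : Fin k → ZMod m | H.Mem (frac m a)} = (S : Set (Fin k → ZMod m)) := by
    ext a
    rw [Finset.mem_coe, hSmem]
    rfl
  rw [hcoe, Set.ncard_coe_finset]
  let f : (Fin k → ZMod m) → (R → ZMod m) := fun a i => a i
  have h1 : S.card ≤ (∏ j, (2 * (p j).natAbs + 1)) * (S.image f).card := by
    refine Finset.card_le_mul_card_image S _ ?_
    intro b hb
    obtain ⟨a0, ha0, hfa0⟩ := Finset.mem_image.1 hb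
    let T : Fin k → Finset (ZMod m) := fun j =>
      univ.filter (fun z : ZMod m => ∃ n : ℤ, (p j : ℚ) * ((z.val : ℚ) / m) =
        Θ j (frac m a0) + n)
    have hT : ∀ j, (T j).card ≤ 2 * (p j).natAbs + 1 := by
      intro j
      have := CT_one m hm (p j) (hp j) (Θ j (frac m a0))
      refine le_trans (le_of_eq ?_) this
      rw [← Set.ncard_coe_finset]
      congr 1
      ext z
      simp [T]
    have hsub : S.filter (fun a => f a = b) ⊆ Fintype.piFinset T := by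
      intro a ha
      rw [Finset.mem_filter] at ha
      rw [Fintype.mem_piFinset]
      intro j
      obtain ⟨n, hn⟩ := hmem j _ ((hSmem a).1 ha.1)
      have h2 : Θ j (frac m a) = Θ j (frac m a0) := by
        apply hΘ
        intro i hi
        have h3 : f a ⟨i, hi⟩ = f a0 ⟨i, hi⟩ := by rw [ha.2, hfa0]
        have h4 : a i = a0 i := h3
        show ((a i).val : ℚ) / m = ((a0 i).val : ℚ) / m
        rw [h4]
      rw [h2] at hn
      exact Finset.mem_filter.2 ⟨Finset.mem_univ _, n, hn⟩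
    refine (Finset.card_le_card hsub).trans ?_
    rw [Fintype.card_piFinset]
    exact Finset.prod_le_prod' fun j _ => hT j
  have h2 : (S.image f).card ≤ m ^ R.card := by
    refine (Finset.card_le_univ _).trans ?_
    rw [Fintype.card_fun, ZMod.card, Fintype.card_coe]
  exact h1.trans (Nat.mul_le_mul_left _ h2)

end Pool.Agent.helper76.FV
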