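import Pool.Agent.helper76.FV.WY

/-! Project FV (MP_3703a7_ag): module FZ, the conditions at level `m` -/

set_option autoImplicit false

namespace Pool.Agent.helper76.FV

open Finset

theorem FZ_fract (m : ℕ) (hm : 0 < m) (t : ℤ) (z : ZMod m) :
    Int.fract ((t : ℚ) * ((z.val : ℚ) / m)) = ((((t : ZMod m) * z).val : ℕ) : ℚ) / m := by
  have : NeZero m := ⟨hm.ne'⟩
  have hm' : (0 : ℚ) < m := by exact_mod_cast hm
  have h1 : ((((t : ZMod m) * z).val : ℕ) : ℤ) = (t * z.val) % m := by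
    have h2 : (t : ZMod m) * z = ((t * z.val : ℤ) : ZMod m) := by
      push_cast
      rw [ZMod.natCast_zmod_val]
    rw [h2, ZMod.val_intCast]
  have h3 : (t * z.val : ℤ) = ((((t : ZMod m) * z).val : ℕ) : ℤ) + m * ((t * z.val) / m) := by
    rw [h1]
    exact (Int.emod_add_mul_ediv _ _).symm
  have h4 : (t : ℚ) * ((z.val : ℚ) / m) =
      ((((t : ZMod m) * z).val : ℕ) : ℚ) / m + (((t * z.val) / m : ℤ) : ℚ) := by
    have h5 : (t : ℚ) * z.val = ((((t : ZMod m) * z).val : ℕ) : ℚ) +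
        m * (((t * z.val) / m : ℤ) : ℚ) := by exact_mod_cast h3
    rw [← mul_div_assoc, h5, add_div, mul_div_cancel_left₀ _ hm'.ne']
  rw [h4, Int.fract_add_intCast, Int.fract_eq_self]
  constructor
  · positivity
  · rw [div_lt_one hm']
    exact_mod_cast ZMod.val_lt _

theorem FZ_fract_one (m : ℕ) (hm : 0 < m) (z : ZMod m) :
    Int.fract ((z.val : ℚ) / m) = (z.val : ℚ) / m := by
  have := FZ_fract m hm 1 z
  simpa using this

theorem FZ_den (m : ℕ) (hm : 0 < m) {k : ℕ} (a : Fin k → ZMod m) (i : Fin k) :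
    (frac m a i).den ∣ m := by
  have hm' : (m : ℚ) ≠ 0 := by exact_mod_cast hm.ne'
  apply den_dvd_of_int _ m hm ((a i).val : ℤ)
  show (m : ℚ) * (((a i).val : ℚ) / m) = _
  rw [mul_div_cancel₀ _ hm']
  push_cast
  rfl

theorem FZ_sum (m : ℕ) (hm : 0 < m) {k : ℕ} (a : Fin k → ZMod m) (t : ℤ) :
    ∑ i, Int.fract ((t : ℚ) * frac m a i) = (k : ℚ) / 2 ↔
      2 * ∑ i, ((t : ZMod m) * a i).val = k * m := by
  have hm' : (m : ℚ) ≠ 0 := by exact_mod_cast hm.ne'
  have h1 : ∑ i, Int.fract ((t : ℚ) * frac m a i) =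
      ((∑ i, ((t : ZMod m) * a i).val : ℕ) : ℚ) / m := by
    rw [Nat.cast_sum, Finset.sum_div]
    exact Finset.sum_congr rfl fun i _ => FZ_fract m hm t (a i)
  rw [h1, div_eq_div_iff hm' two_ne_zero]
  constructor
  · intro h
    have h2 : ((2 * ∑ i, ((t : ZMod m) * a i).val : ℕ) : ℚ) = ((k * m : ℕ) : ℚ) := by
      rw [Nat.cast_mul, Nat.cast_mul, ← h]
      push_cast
      ring
    exact_mod_cast h2
  · intro h
    have h2 : ((2 * ∑ i, ((t : ZMod m) * a i).val : ℕ) : ℚ) = ((k * m : ℕ) : ℚ) := by rw [h]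
    rw [Nat.cast_mul, Nat.cast_mul] at h2
    rw [← h2]
    push_cast
    ring

theorem FZ_ne (m : ℕ) (hm : 0 < m) {k : ℕ} (a : Fin k → ZMod m) (i : Fin k) :
    Int.fract (frac m a i) ≠ 0 ↔ a i ≠ 0 := by
  have : NeZero m := ⟨hm.ne'⟩
  have hm' : (m : ℚ) ≠ 0 := by exact_mod_cast hm.ne'
  have h1 : Int.fract (frac m a i) = ((a i).val : ℚ) / m := FZ_fract_one m hm (a i)
  rw [h1, ne_eq, ne_eq, not_iff_not, div_eq_zero_iff]
  constructor
  · rintro (h | h)
    · have h2 : (a i).val = 0 := by exact_mod_cast h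
      exact (ZMod.val_eq_zero _).1 h2
    · exact absurd h hm'
  · intro h
    left
    rw [h, ZMod.val_zero, Nat.cast_zero]

theorem tateM_iff (m : ℕ) (hm : 0 < m) {k : ℕ} (a : Fin k → ZMod m) :
    TateM m a ↔ Tate (frac m a) := by
  have : NeZero m := ⟨hm.ne'⟩
  constructor
  · rintro ⟨h0, h⟩
    refine ⟨fun i => (FZ_ne m hm a i).2 (h0 i), fun t ht => ?_⟩
    set Q : ℕ := (univ : Finset (Fin k)).lcm (fun i => (frac m a i).den) with hQ
    have hQm : Q ∣ m := Finset.lcm_dvd fun i _ => FZ_den m hm a i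
    have hQ0 : 0 < Q := Nat.pos_of_dvd_of_pos hQm hm
    have hd : ∀ i, (frac m a i).den ∣ Q := fun i => Finset.dvd_lcm (Finset.mem_univ i)
    have hcop : IsCoprime t (Q : ℤ) := by
      have h1 : IsCoprime t (∏ i, ((frac m a i).den : ℤ)) :=
        IsCoprime.prod_right fun i _ => ht i
      have h2 : (Q : ℤ) ∣ ∏ i, ((frac m a i).den : ℤ) := by
        have h3 : Q ∣ ∏ i, (frac m a i).den :=
          Finset.lcm_dvd fun i _ => Finset.dvd_prod_of_mem _ (Finset.mem_univ i)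
        exact_mod_cast h3
      exact h1.of_isCoprime_of_dvd_right h2
    obtain ⟨t', ht', hdiv⟩ := exists_lift Q m hQ0 hm t hcop
    have hu : IsUnit ((t' : ℤ) : ZMod m) := (ZMod.coe_int_isUnit_iff_isCoprime t' m).2 ht'.symm
    have h2 := h hu.unit
    rw [IsUnit.unit_spec] at h2
    rw [← (FZ_sum m hm a t').2 h2]
    refine Finset.sum_congr rfl fun i _ => ?_
    have h3 : ((frac m a i).den : ℤ) ∣ t' - t := dvd_trans (by exact_mod_cast hd i) hdiv
    obtain ⟨c, hc⟩ := h3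
    have h4 : (t' : ℚ) * frac m a i = t * frac m a i + ((c * (frac m a i).num : ℤ) : ℚ) := by
      have h5 : (t' : ℚ) - t = (frac m a i).den * c := by exact_mod_cast hc
      have h6 : (frac m a i) * (frac m a i).den = (frac m a i).num := Rat.mul_den_eq_num _
      push_cast
      rw [← h6]
      linear_combination (frac m a i) * h5
    rw [h4, Int.fract_add_intCast]
  · rintro ⟨h0, h⟩
    refine ⟨fun i => (FZ_ne m hm a i).1 (h0 i), fun t => ?_⟩
    have h1 : (((t : ZMod m).val : ℤ) : ZMod m) = (t : ZMod m) := by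
      push_cast
      exact ZMod.natCast_zmod_val _
    have h2 := (FZ_sum m hm a ((t : ZMod m).val : ℤ)).1 (h _ fun i => by
      have h3 : IsCoprime ((t : ZMod m).val : ℤ) (m : ℤ) :=
        Nat.isCoprime_iff_coprime.2 (ZMod.val_coe_unit_coprime t)
      exact h3.of_isCoprime_of_dvd_right (by exact_mod_cast FZ_den m hm a i))
    rw [h1] at h2
    exact h2

theorem pairedQ_iff (m : ℕ) (hm : 0 < m) {k : ℕ} (a : Fin k → ZMod m) :
    PairedQ (frac m a) ↔ Paired a := by
  have : NeZero m := ⟨hm.ne'⟩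
  have hm' : (m : ℚ) ≠ 0 := by exact_mod_cast hm.ne'
  have key : ∀ i j, (∃ n : ℤ, frac m a i + frac m a j = n) ↔ a j = -a i := by
    intro i j
    constructor
    · rintro ⟨n, hn⟩
      have h1 : ((a i).val : ℚ) / m + ((a j).val : ℚ) / m = n := hn
      rw [← add_div, div_eq_iff hm'] at h1
      have h2 : (((a i).val : ℤ) + ((a j).val : ℤ)) = n * m := by exact_mod_cast h1
      have h3 : ((((a i).val : ℤ) + ((a j).val : ℤ) : ℤ) : ZMod m) = ((n * m : ℤ) : ZMod m) := by
        rw [h2]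
      push_cast at h3
      rw [ZMod.natCast_zmod_val, ZMod.natCast_zmod_val, ZMod.natCast_self, mul_zero] at h3
      exact (neg_eq_of_add_eq_zero_right h3).symm
    · intro h
      have h1 : (((a i).val + (a j).val : ℕ) : ZMod m) = 0 := by
        push_cast
        rw [ZMod.natCast_zmod_val, ZMod.natCast_zmod_val, h, add_neg_cancel]
      rw [ZMod.natCast_eq_zero_iff] at h1
      obtain ⟨c, hc⟩ := h1
      refine ⟨c, ?_⟩
      show ((a i).val : ℚ) / m + ((a j).val : ℚ) / m = _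
      rw [← add_div, div_eq_iff hm']
      have h2 : (((a i).val + (a j).val : ℕ) : ℚ) = ((m * c : ℕ) : ℚ) := by rw [hc]
      push_cast at h2 ⊢
      rw [h2]
      ring
  constructor
  · rintro ⟨σ, h1, h2, h3⟩
    exact ⟨σ, h1, h2, fun i => (key _ _).1 (h3 i)⟩
  · rintro ⟨σ, h1, h2, h3⟩
    exact ⟨σ, h1, h2, fun i => (key _ _).2 (h3 i)⟩

theorem TateM_of_paired (m : ℕ) (hm : 0 < m) {k : ℕ} (a : Fin k → ZMod m) (h0 : ∀ i, a i ≠ 0)
    (h : Paired a) : TateM m a := by
  have : NeZero m := ⟨hm.ne'⟩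
  obtain ⟨σ, h1, h2, h3⟩ := h
  refine ⟨h0, fun t => ?_⟩
  have h4 : ∑ i, ((t : ZMod m) * a i).val = ∑ i, ((t : ZMod m) * a (σ i)).val :=
    (Equiv.sum_comp σ (fun i => ((t : ZMod m) * a i).val)).symm
  have h5 : ∀ i, ((t : ZMod m) * a i).val + ((t : ZMod m) * a (σ i)).val = m := by
    intro i
    have h6 : (t : ZMod m) * a i ≠ 0 := by
      intro h7
      exact h0 i ((Units.mul_right_eq_zero t).1 h7)
    rw [h3 i, mul_neg, ZMod.neg_val, if_neg h6]
    exact Nat.add_sub_cancel' (ZMod.val_lt _).le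
  calc 2 * ∑ i, ((t : ZMod m) * a i).val
      = ∑ i, ((t : ZMod m) * a i).val + ∑ i, ((t : ZMod m) * a (σ i)).val := by
        rw [← h4, two_mul]
    _ = ∑ i, (((t : ZMod m) * a i).val + ((t : ZMod m) * a (σ i)).val) :=
        Finset.sum_add_distrib.symm
    _ = ∑ _i : Fin k, m := Finset.sum_congr rfl fun i _ => h5 i
    _ = k * m := by rw [Finset.sum_const, Finset.card_univ, Fintype.card_fin, smul_eq_mul]

end Pool.Agent.helper76.FV
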