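import Pool.Agent.helper34.FV.WP

/-! Project FV (MP_3703a7_ag): module JP, jumps cancel -/

set_option autoImplicit false

namespace Pool.Agent.helper76.FV

open Finset

theorem JP_small (y z : ℚ) (hz : Int.fract y = 0 → z ≠ 0) :
    ∃ ε : ℚ, 0 < ε ∧ ∀ s : ℚ, 0 < s → s < ε → Int.fract (y + s * z) ≠ 0 ∧
      Int.fract (y + s * z) = Int.fract y + s * z +
        (if Int.fract y = 0 ∧ z < 0 then 1 else 0) := by
  have hz1 : 0 < |z| + 1 := by positivity
  by_cases hc : Int.fract y = 0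
  · have hz0 := hz hc
    refine ⟨1 / (|z| + 1), by positivity, fun s hs hs2 => ?_⟩
    rw [lt_div_iff₀ hz1] at hs2
    have h1 : |s * z| < 1 := by
      rw [abs_mul, abs_of_pos hs]
      nlinarith
    rw [abs_lt] at h1
    rcases lt_or_gt_of_ne hz0 with hneg | hpos
    · have h2 : s * z < 0 := mul_neg_of_pos_of_neg hs hneg
      have h3 : Int.fract (y + s * z) = Int.fract y + s * z +
          (if Int.fract y = 0 ∧ z < 0 then 1 else 0) := by
        rw [if_pos ⟨hc, hneg⟩, hc, Int.fract_eq_iff]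
        refine ⟨by linarith, by linarith, ⌊y⌋ - 1, ?_⟩
        push_cast
        have := Int.floor_add_fract y
        linarith
      refine ⟨?_, h3⟩
      rw [h3, if_pos ⟨hc, hneg⟩, hc]
      linarith
    · have h2 : 0 < s * z := mul_pos hs hpos
      have h3 : Int.fract (y + s * z) = Int.fract y + s * z +
          (if Int.fract y = 0 ∧ z < 0 then 1 else 0) := by
        rw [if_neg (fun h => absurd h.2 (not_lt.2 hpos.le)), hc, Int.fract_eq_iff]
        refine ⟨by linarith, by linarith, ⌊y⌋, ?_⟩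
        have := Int.floor_add_fract y
        linarith
      refine ⟨?_, h3⟩
      rw [h3, if_neg (fun h => absurd h.2 (not_lt.2 hpos.le)), hc]
      linarith
  · have hf0 : 0 < Int.fract y := lt_of_le_of_ne (Int.fract_nonneg y) (Ne.symm hc)
    have hf1 : 0 < 1 - Int.fract y := by linarith [Int.fract_lt_one y]
    refine ⟨min (Int.fract y) (1 - Int.fract y) / (|z| + 1), by positivity,
      fun s hs hs2 => ?_⟩
    rw [lt_div_iff₀ hz1, lt_min_iff] at hs2
    have h1 : |s * z| = s * |z| := by rw [abs_mul, abs_of_pos hs]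
    have h2 := abs_le.1 (le_of_eq h1)
    have h3 : Int.fract (y + s * z) = Int.fract y + s * z +
        (if Int.fract y = 0 ∧ z < 0 then 1 else 0) := by
      rw [if_neg (fun h => hc h.1), Int.fract_eq_iff]
      refine ⟨by nlinarith [hs2.1, h2.1], by nlinarith [hs2.2, h2.2], ⌊y⌋, ?_⟩
      have := Int.floor_add_fract y
      linarith
    refine ⟨?_, h3⟩
    rw [h3, if_neg (fun h => hc h.1)]
    nlinarith [hs2.1, h2.1]

open Classical in
theorem jump {k : ℕ} (H : Fam k) (hp : H.Pure) (v w : Fin H.d → ℚ)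
    (h : ∀ j, Int.fract (∑ l, (H.A j l : ℚ) * v l + H.b j) = 0 → ∑ l, (H.A j l : ℚ) * w l ≠ 0) :
    (univ.filter (fun j => Int.fract (∑ l, (H.A j l : ℚ) * v l + H.b j) = 0 ∧
        0 < ∑ l, (H.A j l : ℚ) * w l)).card =
      (univ.filter (fun j => Int.fract (∑ l, (H.A j l : ℚ) * v l + H.b j) = 0 ∧
        ∑ l, (H.A j l : ℚ) * w l < 0)).card := by
  set y : Fin k → ℚ := fun j => ∑ l, (H.A j l : ℚ) * v l + H.b j with hy
  set z : Fin k → ℚ := fun j => ∑ l, (H.A j l : ℚ) * w l with hz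
  have hsum : ∀ s : ℚ, (∀ j, Int.fract (y j + s * z j) ≠ 0) →
      ∑ j, Int.fract (y j + s * z j) = (k : ℚ) / 2 := by
    intro s hs
    have hmem : H.Mem (fun j => y j + s * z j) := by
      refine ⟨fun l => v l + s * w l, fun j => ⟨0, ?_⟩⟩
      rw [WP_dot, hy, hz]
      push_cast
      ring
    have ht := (hp _ hmem hs).2 1 (fun i => isCoprime_one_left)
    simpa using ht
  have hE1 : ∀ j, ∃ ε : ℚ, 0 < ε ∧ ∀ s : ℚ, 0 < s → s < ε → Int.fract (y j + s * z j) ≠ 0 ∧
      Int.fract (y j + s * z j) = Int.fract (y j) + s * z j +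
        (if Int.fract (y j) = 0 ∧ z j < 0 then 1 else 0) := fun j => JP_small (y j) (z j) (h j)
  have hE2 : ∀ j, ∃ ε : ℚ, 0 < ε ∧ ∀ s : ℚ, 0 < s → s < ε → Int.fract (y j + s * (-z j)) ≠ 0 ∧
      Int.fract (y j + s * (-z j)) = Int.fract (y j) + s * (-z j) +
        (if Int.fract (y j) = 0 ∧ -z j < 0 then 1 else 0) :=
    fun j => JP_small (y j) (-z j) (fun h0 => neg_ne_zero.2 (h j h0))
  choose E1 hE1p hE1 using hE1
  choose E2 hE2p hE2 using hE2
  obtain ⟨ε1, hε1, hε1j⟩ := WP_min E1 hE1p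
  obtain ⟨ε2, hε2, hε2j⟩ := WP_min E2 hE2p
  have key : ∀ s : ℚ, 0 < s → s < ε1 → s < ε2 →
      2 * s * ∑ j, z j = ((univ.filter (fun j => Int.fract (y j) = 0 ∧ 0 < z j)).card : ℚ) -
        ((univ.filter (fun j => Int.fract (y j) = 0 ∧ z j < 0)).card : ℚ) := by
    intro s hs hs1 hs2
    have h1 := hsum s (fun j => (hE1 j s hs (by linarith [hε1j j])).1)
    have h2 := hsum (-s) (fun j => by
      have := (hE2 j s hs (by linarith [hε2j j])).1
      rwa [mul_neg, ← neg_mul] at this)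
    have h3 : ∑ j, Int.fract (y j + s * z j) = ∑ j, Int.fract (y j) + s * ∑ j, z j +
        ((univ.filter (fun j => Int.fract (y j) = 0 ∧ z j < 0)).card : ℚ) := by
      rw [Finset.mul_sum, ← Finset.sum_add_distrib, ← Finset.sum_boole, ← Finset.sum_add_distrib]
      exact Finset.sum_congr rfl fun j _ => (hE1 j s hs (by linarith [hε1j j])).2
    have h4 : ∑ j, Int.fract (y j + -s * z j) = ∑ j, Int.fract (y j) - s * ∑ j, z j +
        ((univ.filter (fun j => Int.fract (y j) = 0 ∧ 0 < z j)).card : ℚ) := by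
      rw [Finset.mul_sum, ← Finset.sum_sub_distrib, ← Finset.sum_boole, ← Finset.sum_add_distrib]
      refine Finset.sum_congr rfl fun j _ => ?_
      have h5 := (hE2 j s hs (by linarith [hε2j j])).2
      rw [mul_neg, ← neg_mul] at h5
      rw [h5]
      simp only [neg_lt_zero]
      ring
    linarith
  have hk1 := key (min ε1 ε2 / 2) (by positivity)
    (by linarith [min_le_left ε1 ε2, lt_min hε1 hε2]) (by linarith [min_le_right ε1 ε2, lt_min hε1 hε2])
  have hk2 := key (min ε1 ε2 / 4) (by positivity)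
    (by linarith [min_le_left ε1 ε2, lt_min hε1 hε2]) (by linarith [min_le_right ε1 ε2, lt_min hε1 hε2])
  have hk3 : ((univ.filter (fun j => Int.fract (y j) = 0 ∧ 0 < z j)).card : ℚ) =
      ((univ.filter (fun j => Int.fract (y j) = 0 ∧ z j < 0)).card : ℚ) := by
    have h5 : 2 * (min ε1 ε2 / 2) * ∑ j, z j = 2 * (2 * (min ε1 ε2 / 4) * ∑ j, z j) := by ring
    linarith
  exact_mod_cast hk3

end Pool.Agent.helper76.FV
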