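import Pool.Agent.helper76.FV.Defs

/-! Project FV (MP_3703a7_ag): module PC, the number of paired vectors -/

set_option autoImplicit false

namespace Pool.Agent.helper76.FV

open Finset

section aux

variable {m n : ℕ}

/-- the vector with a new pair `z`, `-z`, at the places `0` and `j + 1` -/
def PCphi (j : Fin (n + 1)) (z : ZMod m) (b : Fin n → ZMod m) : Fin (n + 2) → ZMod m :=
  Fin.cons (α := fun _ => ZMod m) z (Fin.insertNth (α := fun _ => ZMod m) j (-z) b)

theorem PCphi_zero (j : Fin (n + 1)) (z : ZMod m) (b : Fin n → ZMod m) : PCphi j z b 0 = z := rfl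

theorem PCphi_j (j : Fin (n + 1)) (z : ZMod m) (b : Fin n → ZMod m) :
    PCphi j z b j.succ = -z := by
  unfold PCphi
  rw [Fin.cons_succ, Fin.insertNth_apply_same]

theorem PCphi_i (j : Fin (n + 1)) (z : ZMod m) (b : Fin n → ZMod m) (i : Fin n) :
    PCphi j z b (j.succAbove i).succ = b i := by
  unfold PCphi
  rw [Fin.cons_succ, Fin.insertNth_apply_succAbove]

theorem PC_cases (j : Fin (n + 1)) (x : Fin (n + 2)) :
    x = 0 ∨ x = j.succ ∨ ∃ i : Fin n, x = (j.succAbove i).succ := by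
  rcases Fin.eq_zero_or_eq_succ x with h | ⟨y, rfl⟩
  · left; exact h
  · right
    rcases eq_or_ne y j with rfl | hy
    · left; rfl
    · right
      obtain ⟨i, hi⟩ := Fin.exists_succAbove_eq hy
      exact ⟨i, by rw [hi]⟩

theorem PC_gi_inj (j : Fin (n + 1)) {i i' : Fin n}
    (h : (j.succAbove i).succ = (j.succAbove i').succ) : i = i' :=
  Fin.succAbove_right_injective (Fin.succ_injective _ h)

theorem PC_gi_ne (j : Fin (n + 1)) (i : Fin n) : (j.succAbove i).succ ≠ j.succ := fun h =>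
  Fin.succAbove_ne j i (Fin.succ_injective _ h)

/-- every paired vector comes from a shorter one -/
theorem PC_surj (a : Fin (n + 2) → ZMod m) (h : Paired a) :
    ∃ (j : Fin (n + 1)) (b : Fin n → ZMod m), Paired b ∧ a = PCphi j (a 0) b := by
  obtain ⟨σ, h1, h2, h3⟩ := h
  rcases Fin.eq_zero_or_eq_succ (σ 0) with h0 | ⟨j, hj⟩
  · exact absurd h0 (h1 0)
  refine ⟨j, fun i => a (j.succAbove i).succ, ?_, ?_⟩
  · have hex : ∀ i : Fin n, ∃ i' : Fin n, σ (j.succAbove i).succ = (j.succAbove i').succ := by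
      intro i
      rcases PC_cases j (σ (j.succAbove i).succ) with h4 | h4 | h4
      · exfalso
        have h5 := h2 (j.succAbove i).succ
        rw [h4, hj] at h5
        exact PC_gi_ne j i h5.symm
      · exfalso
        rw [← hj] at h4
        exact Fin.succ_ne_zero _ (σ.injective h4)
      · exact h4
    choose f hf using hex
    have hinv : ∀ i, f (f i) = i := by
      intro i
      apply PC_gi_inj j
      rw [← hf, ← hf, h2]
    refine ⟨Function.Involutive.toPerm f hinv, fun i hi => ?_, hinv, fun i => ?_⟩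
    · have hi' : f i = i := hi
      apply h1 (j.succAbove i).succ
      rw [hf, hi']
    · show a (j.succAbove (f i)).succ = -a (j.succAbove i).succ
      rw [← hf, h3]
  · funext x
    rcases PC_cases j x with rfl | rfl | ⟨i, rfl⟩
    · rfl
    · rw [PCphi_j, ← hj, h3]
    · rw [PCphi_i]

/-- adding a pair to a paired vector -/
theorem PC_paired (j : Fin (n + 1)) (z : ZMod m) (b : Fin n → ZMod m) (h : Paired b) :
    Paired (PCphi j z b) := by
  obtain ⟨σ, h1, h2, h3⟩ := h
  classical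
  have hex : ∀ x : Fin (n + 2), ∃ y : Fin (n + 2), (x = 0 → y = j.succ) ∧ (x = j.succ → y = 0) ∧
      ∀ i, x = (j.succAbove i).succ → y = (j.succAbove (σ i)).succ := by
    intro x
    rcases PC_cases j x with rfl | rfl | ⟨i, rfl⟩
    · exact ⟨j.succ, fun _ => rfl, fun h => absurd h.symm (Fin.succ_ne_zero _),
        fun i h => absurd h.symm (Fin.succ_ne_zero _)⟩
    · exact ⟨0, fun h => absurd h (Fin.succ_ne_zero _), fun _ => rfl,
        fun i h => absurd h.symm (PC_gi_ne j i)⟩
    · exact ⟨(j.succAbove (σ i)).succ, fun h => absurd h (Fin.succ_ne_zero _),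
        fun h => absurd h (PC_gi_ne j i), fun i' h => by rw [PC_gi_inj j h]⟩
  choose τ hτ using hex
  have t0 : τ 0 = j.succ := (hτ 0).1 rfl
  have tj : τ j.succ = 0 := (hτ _).2.1 rfl
  have ti : ∀ i, τ (j.succAbove i).succ = (j.succAbove (σ i)).succ := fun i => (hτ _).2.2 i rfl
  have hinv : ∀ x, τ (τ x) = x := by
    intro x
    rcases PC_cases j x with rfl | rfl | ⟨i, rfl⟩
    · rw [t0, tj]
    · rw [tj, t0]
    · rw [ti, ti, h2]
  refine ⟨Function.Involutive.toPerm τ hinv, fun x hx => ?_, hinv, fun x => ?_⟩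
  · have hx' : τ x = x := hx
    rcases PC_cases j x with rfl | rfl | ⟨i, rfl⟩
    · rw [t0] at hx'; exact Fin.succ_ne_zero _ hx'
    · rw [tj] at hx'; exact Fin.succ_ne_zero _ hx'.symm
    · rw [ti] at hx'; exact h1 i (PC_gi_inj j hx')
  · show PCphi j z b (τ x) = -PCphi j z b x
    rcases PC_cases j x with rfl | rfl | ⟨i, rfl⟩
    · rw [t0, PCphi_j, PCphi_zero]
    · rw [tj, PCphi_j, PCphi_zero, neg_neg]
    · rw [ti, PCphi_i, PCphi_i, h3]

end aux

open Classical in
/-- paired vectors without zeros -/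
noncomputable def PCF (m : ℕ) [NeZero m] (n : ℕ) : Finset (Fin n → ZMod m) :=
  univ.filter (fun a => (∀ i, a i ≠ 0) ∧ Paired a)

open Classical in
/-- paired vectors without zeros, with distinct entries -/
noncomputable def PCD (m : ℕ) [NeZero m] (n : ℕ) : Finset (Fin n → ZMod m) :=
  univ.filter (fun a => (∀ i, a i ≠ 0) ∧ Paired a ∧ Function.Injective a)

theorem mem_PCF {m : ℕ} [NeZero m] {n : ℕ} (a : Fin n → ZMod m) :
    a ∈ PCF m n ↔ (∀ i, a i ≠ 0) ∧ Paired a := by unfold PCF; simp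

theorem mem_PCD {m : ℕ} [NeZero m] {n : ℕ} (a : Fin n → ZMod m) :
    a ∈ PCD m n ↔ (∀ i, a i ≠ 0) ∧ Paired a ∧ Function.Injective a := by unfold PCD; simp

theorem PCF_step (m : ℕ) [NeZero m] (n : ℕ) :
    (PCF m (n + 2)).card ≤ (n + 1) * m * (PCF m n).card := by
  classical
  have hsub : PCF m (n + 2) ⊆ ((univ : Finset (Fin (n + 1))) ×ˢ ((univ : Finset (ZMod m)) ×ˢ
      PCF m n)).image (fun p => PCphi p.1 p.2.1 p.2.2) := by
    intro a ha
    rw [mem_PCF] at ha
    obtain ⟨j, b, hb, hab⟩ := PC_surj a ha.2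
    rw [Finset.mem_image]
    refine ⟨(j, a 0, b), ?_, hab.symm⟩
    rw [Finset.mem_product, Finset.mem_product]
    refine ⟨Finset.mem_univ _, Finset.mem_univ _, ?_⟩
    rw [mem_PCF]
    refine ⟨fun i => ?_, hb⟩
    have := ha.1 (j.succAbove i).succ
    rw [hab, PCphi_i] at this
    exact this
  refine (Finset.card_le_card hsub).trans (Finset.card_image_le.trans (le_of_eq ?_))
  rw [Finset.card_product, Finset.card_product, Finset.card_univ, Finset.card_univ,
    Fintype.card_fin, ZMod.card, mul_assoc]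

theorem PC_two (m : ℕ) [NeZero m] : ((univ : Finset (ZMod m)).filter (fun z => z + z = 0)).card ≤ 2 := by
  have : ((univ : Finset (ZMod m)).filter (fun z => z + z = 0)).card ≤ ({0, m / 2} : Finset ℕ).card := by
    refine Finset.card_le_card_of_injOn (fun z => z.val) ?_ ?_
    · intro z hz
      rw [Finset.mem_coe, Finset.mem_filter] at hz
      have h1 : ((z.val + z.val : ℕ) : ZMod m) = 0 := by
        push_cast
        rw [ZMod.natCast_zmod_val]
        exact hz.2
      rw [ZMod.natCast_eq_zero_iff] at h1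
      obtain ⟨c, hc⟩ := h1
      have h2 := ZMod.val_lt z
      have h3 : c < 2 := by
        by_contra h
        have : m * 2 ≤ m * c := Nat.mul_le_mul_left _ (not_lt.1 h)
        omega
      rw [Finset.mem_coe, Finset.mem_insert, Finset.mem_singleton]
      show z.val = 0 ∨ z.val = m / 2
      interval_cases c
      · left; omega
      · right; omega
    · intro z _ z' _ h
      exact ZMod.val_injective m h
  exact this.trans Finset.card_le_two

theorem PCD_step (m : ℕ) [NeZero m] (n : ℕ) :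
    (n + 1) * (m - (n + 2)) * (PCD m n).card ≤ (PCD m (n + 2)).card := by
  classical
  -- pairs `(b, z)` with `z` good
  let G : (Fin n → ZMod m) → Finset (ZMod m) := fun b =>
    univ.filter (fun z => z + z ≠ 0 ∧ ∀ i, z ≠ b i)
  have hG : ∀ b, m - (n + 2) ≤ (G b).card := by
    intro b
    have h1 : (G b)ᶜ ⊆ (univ : Finset (ZMod m)).filter (fun z => z + z = 0) ∪ univ.image b := by
      intro z hz
      rw [Finset.mem_compl] at hz
      rw [Finset.mem_union, Finset.mem_filter, Finset.mem_image]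
      by_contra hc
      apply hz
      refine Finset.mem_filter.2 ⟨Finset.mem_univ _, fun h => hc (Or.inl ⟨Finset.mem_univ _, h⟩),
        fun i h => hc (Or.inr ⟨i, Finset.mem_univ _, h.symm⟩)⟩
    have h2 := Finset.card_le_card h1
    have h3 := Finset.card_union_le ((univ : Finset (ZMod m)).filter (fun z => z + z = 0))
      (univ.image b)
    have h4 := PC_two m
    have h5 : (univ.image b).card ≤ n := by
      refine Finset.card_image_le.trans ?_
      rw [Finset.card_univ, Fintype.card_fin]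
    rw [Finset.card_compl, ZMod.card] at h2
    omega
  let P : Finset (Σ _ : Fin (n + 1), Σ _ : Fin n → ZMod m, ZMod m) :=
    (univ : Finset (Fin (n + 1))).sigma (fun _ => (PCD m n).sigma G)
  have hneg : ∀ (b : Fin n → ZMod m) (z : ZMod m), Paired b → (∀ i, z ≠ b i) →
      ∀ i, -z ≠ b i := by
    rintro b z ⟨σ, -, -, h3⟩ hzb i hi
    apply hzb (σ i)
    rw [h3, ← hi, neg_neg]
  have hP : (n + 1) * (m - (n + 2)) * (PCD m n).card ≤ P.card := by
    rw [Finset.card_sigma, Finset.sum_const, Finset.card_univ, Fintype.card_fin, smul_eq_mul,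
      Finset.card_sigma, mul_assoc]
    refine Nat.mul_le_mul_left _ ?_
    rw [mul_comm, ← smul_eq_mul, ← Finset.sum_const]
    exact Finset.sum_le_sum fun b _ => hG b
  refine hP.trans ?_
  refine Finset.card_le_card_of_injOn (fun p => PCphi p.1 p.2.2 p.2.1) ?_ ?_
  · rintro ⟨j, b, z⟩ hp
    rw [Finset.mem_coe, Finset.mem_sigma, Finset.mem_sigma] at hp
    obtain ⟨-, hb, hz⟩ := hp
    rw [mem_PCD] at hb
    obtain ⟨hb0, hbp, hbi⟩ := hb
    obtain ⟨-, hz0, hzb⟩ := Finset.mem_filter.1 hz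
    have hzb' : ∀ i, -z ≠ b i := hneg b z hbp hzb
    have hz1 : z ≠ 0 := by
      rintro rfl
      exact hz0 (add_zero 0)
    have hz2 : -z ≠ z := by
      intro h
      apply hz0
      nth_rewrite 1 [← h]
      exact neg_add_cancel z
    show PCphi j z b ∈ (PCD m (n + 2) : Set _)
    rw [Finset.mem_coe, mem_PCD]
    refine ⟨fun x => ?_, PC_paired j z b hbp, fun x y hxy => ?_⟩
    · rcases PC_cases j x with rfl | rfl | ⟨i, rfl⟩
      · rw [PCphi_zero]; exact hz1
      · rw [PCphi_j]; exact neg_ne_zero.2 hz1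
      · rw [PCphi_i]; exact hb0 i
    · rcases PC_cases j x with rfl | rfl | ⟨i, rfl⟩ <;>
      rcases PC_cases j y with rfl | rfl | ⟨i', rfl⟩ <;>
      simp only [PCphi_zero, PCphi_j, PCphi_i] at hxy
      · rfl
      · exact absurd hxy.symm hz2
      · exact absurd hxy (hzb i')
      · exact absurd hxy hz2
      · rfl
      · exact absurd hxy (hzb' i')
      · exact absurd hxy.symm (hzb i)
      · exact absurd hxy.symm (hzb' i)
      · rw [hbi hxy]
  · rintro ⟨j, b, z⟩ hp ⟨j', b', z'⟩ hp' h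
    rw [Finset.mem_coe, Finset.mem_sigma, Finset.mem_sigma] at hp hp'
    obtain ⟨-, hb, hz⟩ := hp
    rw [mem_PCD] at hb
    obtain ⟨hb0, hbp, hbi⟩ := hb
    obtain ⟨-, hz0, hzb⟩ := Finset.mem_filter.1 hz
    have hzb' : ∀ i, -z ≠ b i := hneg b z hbp hzb
    have h' : PCphi j z b = PCphi j' z' b' := h
    have hzz : z = z' := by
      have := congrFun h' 0
      rwa [PCphi_zero, PCphi_zero] at this
    subst hzz
    have hjj : j = j' := by
      have h4 := congrFun h' j'.succ
      rw [PCphi_j] at h4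
      rcases PC_cases j j'.succ with h5 | h5 | ⟨i, h5⟩
      · exact absurd h5 (Fin.succ_ne_zero _)
      · exact (Fin.succ_injective _ h5).symm
      · rw [h5, PCphi_i] at h4
        exact absurd h4.symm (hzb' i)
    subst hjj
    have hbb : b = b' := by
      funext i
      have := congrFun h' (j.succAbove i).succ
      rwa [PCphi_i, PCphi_i] at this
    subst hbb
    rfl

theorem PC_D_le_F (m : ℕ) [NeZero m] (n : ℕ) : (PCD m n).card ≤ (PCF m n).card := by
  refine Finset.card_le_card fun a ha => ?_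
  rw [mem_PCD] at ha
  rw [mem_PCF]
  exact ⟨ha.1, ha.2.1⟩

theorem PC_F_zero (m : ℕ) [NeZero m] : (PCF m 0).card ≤ 1 := by
  refine (Finset.card_le_univ _).trans ?_
  simp

theorem PC_D_zero (m : ℕ) [NeZero m] : 1 ≤ (PCD m 0).card := by
  apply Finset.card_pos.2
  refine ⟨fun i => i.elim0, ?_⟩
  rw [mem_PCD]
  exact ⟨fun i => i.elim0, ⟨1, fun i => i.elim0, fun i => i.elim0, fun i => i.elim0⟩,
    fun i => i.elim0⟩

theorem PC_upper (m : ℕ) [NeZero m] (r : ℕ) :
    (PCF m (2 * r + 2)).card ≤ Nat.doubleFactorial (2 * r + 1) * m ^ (r + 1) := by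
  induction r with
  | zero =>
    have h1 := PCF_step m 0
    have h2 := PC_F_zero m
    have h3 : (0 + 1) * m * (PCF m 0).card ≤ (0 + 1) * m * 1 := Nat.mul_le_mul_left _ h2
    have h4 : Nat.doubleFactorial (2 * 0 + 1) = 1 := rfl
    rw [h4]
    simp only [Nat.mul_zero, Nat.zero_add, pow_one, one_mul, mul_one] at h1 h3 ⊢
    exact h1.trans h3
  | succ r ih =>
    have h1 := PCF_step m (2 * r + 2)
    have h2 : Nat.doubleFactorial (2 * (r + 1) + 1) = (2 * r + 3) * Nat.doubleFactorial (2 * r + 1) :=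
      Nat.doubleFactorial_add_two (2 * r + 1)
    calc (PCF m (2 * (r + 1) + 2)).card ≤ (2 * r + 2 + 1) * m * (PCF m (2 * r + 2)).card := h1
      _ ≤ (2 * r + 2 + 1) * m * (Nat.doubleFactorial (2 * r + 1) * m ^ (r + 1)) :=
          Nat.mul_le_mul_left _ ih
      _ = _ := by rw [h2]; ring

theorem PC_lower (m : ℕ) [NeZero m] (r : ℕ) :
    (Nat.doubleFactorial (2 * r + 1) : ℤ) * ((m : ℤ) ^ (r + 1) - ((r + 1) * (r + 2)) * (m : ℤ) ^ r) ≤
      (PCD m (2 * r + 2)).card := by
  induction r with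
  | zero =>
    have h1 := PCD_step m 0
    have h2 := PC_D_zero m
    have h3 : (0 + 1) * (m - (0 + 2)) * 1 ≤ (0 + 1) * (m - (0 + 2)) * (PCD m 0).card :=
      Nat.mul_le_mul_left _ h2
    have h4 : Nat.doubleFactorial (2 * 0 + 1) = 1 := rfl
    rw [h4]
    simp only [Nat.mul_zero, Nat.zero_add]
    push_cast
    have h8 : m - 2 ≤ (PCD m 2).card := by
      have h9 : (0 + 1) * (m - (0 + 2)) * 1 = m - 2 := by simp
      rw [h9] at h3
      exact h3.trans h1
    have h6 : m ≤ (PCD m 2).card + 2 := by omega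
    have h7 : (m : ℤ) ≤ (PCD m 2).card + 2 := by exact_mod_cast h6
    linarith
  | succ r ih =>
    have h1 := PCD_step m (2 * r + 2)
    have h2 : Nat.doubleFactorial (2 * (r + 1) + 1) = (2 * r + 3) * Nat.doubleFactorial (2 * r + 1) :=
      Nat.doubleFactorial_add_two (2 * r + 1)
    have hU : ((PCD m (2 * r + 2)).card : ℤ) ≤ Nat.doubleFactorial (2 * r + 1) * (m : ℤ) ^ (r + 1) := by
      exact_mod_cast (PC_D_le_F m _).trans (PC_upper m r)
    have h3 : (2 * r + 3 : ℤ) * ((m : ℤ) - (2 * r + 4)) * (PCD m (2 * r + 2)).card ≤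
        (PCD m (2 * (r + 1) + 2)).card := by
      have h4 : ((m : ℤ) - (2 * r + 4)) ≤ ((m - (2 * r + 2 + 2) : ℕ) : ℤ) := by omega
      have h5 : (((2 * r + 2 + 1) * (m - (2 * r + 2 + 2)) * (PCD m (2 * r + 2)).card : ℕ) : ℤ) ≤
        (PCD m (2 * (r + 1) + 2)).card := by exact_mod_cast h1
      refine le_trans ?_ h5
      rw [Nat.cast_mul, Nat.cast_mul]
      refine mul_le_mul_of_nonneg_right ?_ (Int.natCast_nonneg _)
      have h6 : ((2 * r + 2 + 1 : ℕ) : ℤ) = 2 * r + 3 := by push_cast; ring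
      rw [h6]
      exact mul_le_mul_of_nonneg_left h4 (by positivity)
    refine le_trans ?_ h3
    rw [h2]
    push_cast
    have hm0 : (0 : ℤ) ≤ m := Int.natCast_nonneg _
    have e1 : (m : ℤ) * ((Nat.doubleFactorial (2 * r + 1) : ℤ) *
        ((m : ℤ) ^ (r + 1) - ((r + 1) * (r + 2)) * (m : ℤ) ^ r)) ≤
        m * (PCD m (2 * r + 2)).card := mul_le_mul_of_nonneg_left ih hm0
    have e2 : (2 * r + 4 : ℤ) * (PCD m (2 * r + 2)).card ≤
        (2 * r + 4) * (Nat.doubleFactorial (2 * r + 1) * (m : ℤ) ^ (r + 1)) :=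
      mul_le_mul_of_nonneg_left hU (by positivity)
    have e3 : (2 * r + 3 : ℤ) * ((m : ℤ) * ((Nat.doubleFactorial (2 * r + 1) : ℤ) *
        ((m : ℤ) ^ (r + 1) - ((r + 1) * (r + 2)) * (m : ℤ) ^ r)) -
        (2 * r + 4) * (Nat.doubleFactorial (2 * r + 1) * (m : ℤ) ^ (r + 1))) ≤
        (2 * r + 3) * (m * (PCD m (2 * r + 2)).card - (2 * r + 4) * (PCD m (2 * r + 2)).card) :=
      mul_le_mul_of_nonneg_left (by linarith) (by positivity)
    calc _ = (2 * r + 3 : ℤ) * ((m : ℤ) * ((Nat.doubleFactorial (2 * r + 1) : ℤ) *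
        ((m : ℤ) ^ (r + 1) - ((r + 1) * (r + 2)) * (m : ℤ) ^ r)) -
        (2 * r + 4) * (Nat.doubleFactorial (2 * r + 1) * (m : ℤ) ^ (r + 1))) := by ring
      _ ≤ _ := e3
      _ = _ := by ring

theorem paired_count (r : ℕ) : ∃ C : ℕ, ∀ m : ℕ, 0 < m →
    |(Set.ncard {a : Fin (2 * r + 2) → ZMod m | (∀ i, a i ≠ 0) ∧ Paired a} : ℤ)
      - (Nat.doubleFactorial (2 * r + 1) : ℤ) * (m : ℤ) ^ (r + 1)| ≤ C * (m : ℤ) ^ r := by
  refine ⟨Nat.doubleFactorial (2 * r + 1) * ((r + 1) * (r + 2)), fun m hm => ?_⟩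
  have : NeZero m := ⟨hm.ne'⟩
  have hcoe : {a : Fin (2 * r + 2) → ZMod m | (∀ i, a i ≠ 0) ∧ Paired a} =
      (PCF m (2 * r + 2) : Set (Fin (2 * r + 2) → ZMod m)) := by
    ext a
    rw [Finset.mem_coe, mem_PCF]
    rfl
  rw [hcoe, Set.ncard_coe_finset]
  have h1 : ((PCF m (2 * r + 2)).card : ℤ) ≤ Nat.doubleFactorial (2 * r + 1) * (m : ℤ) ^ (r + 1) := by
    exact_mod_cast PC_upper m r
  have h2 := PC_lower m r
  have h3 : ((PCD m (2 * r + 2)).card : ℤ) ≤ (PCF m (2 * r + 2)).card := by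
    exact_mod_cast PC_D_le_F m (2 * r + 2)
  have h4 : (0 : ℤ) ≤ ((Nat.doubleFactorial (2 * r + 1) * ((r + 1) * (r + 2)) : ℕ) : ℤ) *
      (m : ℤ) ^ r := by positivity
  rw [abs_le]
  constructor
  · push_cast at h4 ⊢
    linarith
  · linarith

end Pool.Agent.helper76.FV
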