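import Pool.Agent.helper76.FV.Defs

/-! Project FV (MP_3703a7_ag): module WP, generic points of walls -/

set_option autoImplicit false

namespace Pool.Agent.helper76.FV

open Finset

/-- adding a small multiple of a nonzero number gives a non-integer -/
theorem WP_small (c d : ℚ) (hd : d ≠ 0) :
    ∃ ε : ℚ, 0 < ε ∧ ∀ s : ℚ, 0 < s → s < ε → Int.fract (c + s * d) ≠ 0 := by
  have hd' : 0 < |d| := abs_pos.2 hd
  by_cases hc : Int.fract c = 0
  · refine ⟨1 / |d|, by positivity, fun s hs hs2 h => ?_⟩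
    rw [Int.fract_eq_zero_iff] at h hc
    obtain ⟨m, hm⟩ := h
    obtain ⟨m0, hm0⟩ := hc
    have h1 : s * d = ((m - m0 : ℤ) : ℚ) := by
      push_cast
      rw [hm, hm0]
      ring
    have h2 : |s * d| < 1 := by
      rw [abs_mul, abs_of_pos hs]
      rwa [lt_div_iff₀ hd'] at hs2
    rw [h1] at h2
    have h3 : |m - m0| < 1 := by exact_mod_cast h2
    have h4 : m - m0 = 0 := Int.abs_lt_one_iff.1 h3
    rw [h4] at h1
    have h5 : s * d = 0 := by rw [h1]; norm_num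
    rcases mul_eq_zero.1 h5 with h6 | h6
    · exact absurd h6 hs.ne'
    · exact hd h6
  · have hf0 : 0 < Int.fract c := lt_of_le_of_ne (Int.fract_nonneg c) (Ne.symm hc)
    have hf1 : 0 < 1 - Int.fract c := by linarith [Int.fract_lt_one c]
    refine ⟨min (Int.fract c) (1 - Int.fract c) / |d|, by positivity, fun s hs hs2 h => ?_⟩
    rw [Int.fract_eq_zero_iff] at h
    obtain ⟨m, hm⟩ := h
    rw [lt_div_iff₀ hd', lt_min_iff] at hs2
    have h1 : |s * d| = s * |d| := by rw [abs_mul, abs_of_pos hs]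
    have h2 := abs_le.1 (le_of_eq h1)
    have h3 : ((m - ⌊c⌋ : ℤ) : ℚ) = Int.fract c + s * d := by
      push_cast
      rw [hm]
      have := Int.floor_add_fract c
      linarith
    have h4 : (0 : ℚ) < ((m - ⌊c⌋ : ℤ) : ℚ) := by
      rw [h3]; linarith [hs2.1, h2.1]
    have h5 : ((m - ⌊c⌋ : ℤ) : ℚ) < 1 := by
      rw [h3]; linarith [hs2.2, h2.2]
    have h6 : 0 < m - ⌊c⌋ := by exact_mod_cast h4
    have h7 : m - ⌊c⌋ < 1 := by exact_mod_cast h5
    omega

/-- a common positive lower bound -/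
theorem WP_min {ι : Type} [Finite ι] (E : ι → ℚ) (hE : ∀ j, 0 < E j) :
    ∃ ε : ℚ, 0 < ε ∧ ∀ j, ε ≤ E j := by
  classical
  have := Fintype.ofFinite ι
  rcases isEmpty_or_nonempty ι with h | h
  · exact ⟨1, one_pos, fun j => (h.false j).elim⟩
  · obtain ⟨j, -, hj⟩ := Finset.exists_min_image (Finset.univ : Finset ι) E Finset.univ_nonempty
    exact ⟨E j, hE j, fun i => hj i (Finset.mem_univ i)⟩

theorem WP_dot {d : ℕ} (a : Fin d → ℤ) (b c : Fin d → ℚ) (s : ℚ) :
    ∑ l, (a l : ℚ) * (b l + s * c l) = ∑ l, (a l : ℚ) * b l + s * ∑ l, (a l : ℚ) * c l := by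
  rw [Finset.mul_sum, ← Finset.sum_add_distrib]
  exact Finset.sum_congr rfl fun l _ => by ring

theorem WP_sq_pos {d : ℕ} (a : Fin d → ℤ) (ha : a ≠ 0) : 0 < ∑ l, (a l : ℚ) * (a l : ℚ) := by
  obtain ⟨l, hl⟩ := Function.ne_iff.1 ha
  refine Finset.sum_pos' (fun i _ => mul_self_nonneg _) ⟨l, Finset.mem_univ l, ?_⟩
  have : (a l : ℚ) ≠ 0 := by exact_mod_cast hl
  exact mul_self_pos.2 this

/-- a vector orthogonal to `a` and not orthogonal to `b` -/
theorem WP_one {d : ℕ} (a b : Fin d → ℤ) (ha : a ≠ 0) (hb : b ≠ 0) (h : ¬ Par b a) :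
    ∃ w : Fin d → ℚ, ∑ l, (a l : ℚ) * w l = 0 ∧ ∑ l, (b l : ℚ) * w l ≠ 0 := by
  set N : ℤ := ∑ l, a l * a l with hN
  set P : ℤ := ∑ l, a l * b l with hP
  have hNq : (N : ℚ) = ∑ l, (a l : ℚ) * (a l : ℚ) := by rw [hN]; push_cast; rfl
  have hPq : (P : ℚ) = ∑ l, (a l : ℚ) * (b l : ℚ) := by rw [hP]; push_cast; rfl
  have hNpos : (0 : ℚ) < N := by rw [hNq]; exact WP_sq_pos a ha
  refine ⟨fun l => (N : ℚ) * b l - P * a l, ?_, ?_⟩
  · have : ∑ l, (a l : ℚ) * ((N : ℚ) * b l - P * a l) =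
        N * ∑ l, (a l : ℚ) * (b l : ℚ) - P * ∑ l, (a l : ℚ) * (a l : ℚ) := by
      rw [Finset.mul_sum, Finset.mul_sum, ← Finset.sum_sub_distrib]
      exact Finset.sum_congr rfl fun l _ => by ring
    rw [this, ← hNq, ← hPq]
    ring
  · intro h0
    have h1 : ∑ l, ((N : ℚ) * b l - P * a l) * ((N : ℚ) * b l - P * a l) = 0 := by
      have : ∑ l, ((N : ℚ) * b l - P * a l) * ((N : ℚ) * b l - P * a l) =
          N * ∑ l, (b l : ℚ) * ((N : ℚ) * b l - P * a l) -
          P * (N * ∑ l, (a l : ℚ) * (b l : ℚ) - P * ∑ l, (a l : ℚ) * (a l : ℚ)) := by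
        simp only [Finset.mul_sum, ← Finset.sum_sub_distrib]
        exact Finset.sum_congr rfl fun l _ => by ring
      rw [this, h0, ← hNq, ← hPq]
      ring
    have h2 : ∀ l, (N : ℚ) * b l - P * a l = 0 := by
      intro l
      have := (Finset.sum_eq_zero_iff_of_nonneg (fun l _ => mul_self_nonneg _)).1 h1 l
        (Finset.mem_univ l)
      exact mul_self_eq_zero.1 this
    apply h
    have hNne : N ≠ 0 := by
      intro h3
      rw [h3] at hNpos
      simp at hNpos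
    refine ⟨N, P, hNne, ?_, ?_⟩
    · intro hP0
      apply hb
      funext l
      have h3 := h2 l
      rw [hP0] at h3
      simp only [Int.cast_zero, zero_mul, sub_zero, mul_eq_zero] at h3
      rcases h3 with h4 | h4
      · exact absurd h4 hNpos.ne'
      · exact_mod_cast h4
    · intro l
      have h3 := h2 l
      have h4 : (N : ℚ) * b l = P * a l := by linarith
      exact_mod_cast h4

/-- one vector orthogonal to `a` and to no row of a finite set -/
theorem WP_many {d k : ℕ} (a : Fin d → ℤ) (ha : a ≠ 0) (B : Fin k → Fin d → ℤ)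
    (S : Finset (Fin k)) (hS : ∀ j ∈ S, B j ≠ 0 ∧ ¬ Par (B j) a) :
    ∃ w : Fin d → ℚ, ∑ l, (a l : ℚ) * w l = 0 ∧ ∀ j ∈ S, ∑ l, (B j l : ℚ) * w l ≠ 0 := by
  classical
  induction S using Finset.induction_on with
  | empty => exact ⟨fun _ => 0, by simp, by simp⟩
  | insert j S hj ih =>
    obtain ⟨w, hw1, hw2⟩ := ih fun i hi => hS i (Finset.mem_insert_of_mem hi)
    by_cases hwj : ∑ l, (B j l : ℚ) * w l = 0
    · obtain ⟨w', hw1', hw2'⟩ := WP_one a (B j) ha (hS j (Finset.mem_insert_self _ _)).1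
        (hS j (Finset.mem_insert_self _ _)).2
      obtain ⟨t, ht⟩ := Infinite.exists_notMem_finset
        (insert (0 : ℚ) (S.image fun i =>
          -(∑ l, (B i l : ℚ) * w l) / (∑ l, (B i l : ℚ) * w' l)))
      rw [Finset.mem_insert, not_or] at ht
      refine ⟨fun l => w l + t * w' l, ?_, ?_⟩
      · rw [WP_dot, hw1, hw1']; ring
      · intro i hi
        rw [WP_dot]
        rcases Finset.mem_insert.1 hi with rfl | hi
        · rw [hwj, zero_add]
          exact mul_ne_zero ht.1 hw2'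
        · intro h0
          by_cases h1 : ∑ l, (B i l : ℚ) * w' l = 0
          · rw [h1, mul_zero, add_zero] at h0
            exact hw2 i hi h0
          · apply ht.2
            refine Finset.mem_image.2 ⟨i, hi, ?_⟩
            rw [div_eq_iff h1]
            linarith
    · refine ⟨w, hw1, fun i hi => ?_⟩
      rcases Finset.mem_insert.1 hi with rfl | hi
      · exact hwj
      · exact hw2 i hi

theorem wall {k : ℕ} (H : Fam k) (i : Fin k) (hi : H.A i ≠ 0) (n : ℤ) :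
    ∃ v : Fin H.d → ℚ, ∑ l, (H.A i l : ℚ) * v l + H.b i = n ∧
      ∀ j, H.A j ≠ 0 → ¬ Par (H.A j) (H.A i) →
        Int.fract (∑ l, (H.A j l : ℚ) * v l + H.b j) ≠ 0 := by
  classical
  obtain ⟨w, hw1, hw2⟩ := WP_many (H.A i) hi H.A
    (Finset.univ.filter fun j => H.A j ≠ 0 ∧ ¬ Par (H.A j) (H.A i))
    (fun j hj => (Finset.mem_filter.1 hj).2)
  have hN := WP_sq_pos (H.A i) hi
  set N : ℚ := ∑ l, (H.A i l : ℚ) * (H.A i l : ℚ) with hNdef
  set u : Fin H.d → ℚ := fun l => ((n : ℚ) - H.b i) / N * H.A i l with hu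
  have hu1 : ∑ l, (H.A i l : ℚ) * u l = n - H.b i := by
    have : ∑ l, (H.A i l : ℚ) * u l = ((n : ℚ) - H.b i) / N * N := by
      rw [hNdef, Finset.mul_sum]
      exact Finset.sum_congr rfl fun l _ => by rw [hu]; ring
    rw [this, div_mul_cancel₀ _ hN.ne']
  have hE : ∀ j : Fin k, ∃ ε : ℚ, 0 < ε ∧ ∀ s : ℚ, 0 < s → s < ε → H.A j ≠ 0 →
      ¬ Par (H.A j) (H.A i) →
      Int.fract (∑ l, (H.A j l : ℚ) * (u l + s * w l) + H.b j) ≠ 0 := by
    intro j
    by_cases hj : H.A j ≠ 0 ∧ ¬ Par (H.A j) (H.A i)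
    · obtain ⟨ε, hε, h⟩ := WP_small (∑ l, (H.A j l : ℚ) * u l + H.b j)
        (∑ l, (H.A j l : ℚ) * w l) (hw2 j (by simp [hj]))
      refine ⟨ε, hε, fun s hs hs2 _ _ => ?_⟩
      have := h s hs hs2
      rw [WP_dot]
      convert this using 2
      ring
    · exact ⟨1, one_pos, fun s _ _ h1 h2 => absurd ⟨h1, h2⟩ hj⟩
  choose E hE0 hE1 using hE
  obtain ⟨ε, hε, hεj⟩ := WP_min E hE0
  refine ⟨fun l => u l + ε / 2 * w l, ?_, fun j hj1 hj2 => ?_⟩
  · rw [WP_dot, hu1, hw1]; ring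
  · exact hE1 j (ε / 2) (by positivity) (by linarith [hεj j]) hj1 hj2

end Pool.Agent.helper76.FV
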